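import Pool.Agent.Helper10.QRH.StC

set_option autoImplicit false
open scoped Classical

namespace Pool.Agent.Helper2.QRH

open Pool.Agent.Helper10.QRH

/-- polynomial factors are absorbed -/
lemma absorb (c : ℝ) (hc : 0 < c) (C : ℝ) :
    ∃ K0 : ℕ, ∀ k : ℕ, K0 ≤ k → C * ((k : ℝ) + 1) ≤ (2 : ℝ) ^ (c * k) := by
  have h1 : (1 : ℝ) < (2 : ℝ) ^ c := Real.one_lt_rpow (by norm_num) hc
  have h2 := tendsto_pow_const_div_const_pow_of_one_lt 1 h1
  have h3 : ∀ᶠ n : ℕ in Filter.atTop, (n : ℝ) ^ 1 / ((2 : ℝ) ^ c) ^ n < 1 / (2 * (|C| + 1)) :=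
    h2.eventually (gt_mem_nhds (by positivity))
  obtain ⟨N, hN⟩ := Filter.eventually_atTop.1 h3
  refine ⟨max N 1, fun k hk => ?_⟩
  have hk1 : (1 : ℝ) ≤ k := by exact_mod_cast (le_max_right N 1).trans hk
  have h4 := hN k ((le_max_left N 1).trans hk)
  have h5 : (0 : ℝ) < ((2 : ℝ) ^ c) ^ k := by positivity
  rw [div_lt_div_iff₀ h5 (by positivity), pow_one, one_mul] at h4
  have h6 : (2 : ℝ) ^ (c * k) = ((2 : ℝ) ^ c) ^ k := by
    rw [Real.rpow_mul (by norm_num), Real.rpow_natCast]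
  rw [h6]
  have h7 : C ≤ |C| := le_abs_self C
  nlinarith [abs_nonneg C]

/-- counting by fibers -/
lemma card_fiber {α β : Type*} [DecidableEq β] (T : Finset α) (f : α → β) (B : ℝ)
    (h : ∀ b ∈ T.image f, ((T.filter (fun a => f a = b)).card : ℝ) ≤ B) :
    (T.card : ℝ) ≤ ((T.image f).card : ℝ) * B := by
  rw [Finset.card_eq_sum_card_image f T]
  push_cast
  calc _ ≤ ∑ b ∈ T.image f, B := Finset.sum_le_sum h
    _ = _ := by simp

lemma card_fiber' {α β : Type*} [DecidableEq β] (T : Finset α) (f : α → β) (U : Finset β)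
    (hU : ∀ a ∈ T, f a ∈ U) (B : β → ℝ)
    (h : ∀ b ∈ U, ((T.filter (fun a => f a = b)).card : ℝ) ≤ B b) :
    (T.card : ℝ) ≤ ∑ b ∈ U, B b := by
  rw [Finset.card_eq_sum_card_fiberwise (f := f) (t := U) hU]
  push_cast
  exact Finset.sum_le_sum h

lemma two_pos' (x : ℝ) : (0 : ℝ) < (2 : ℝ) ^ x := by positivity

lemma two_le {x y : ℝ} (h : x ≤ y) : (2 : ℝ) ^ x ≤ (2 : ℝ) ^ y :=
  Real.rpow_le_rpow_of_exponent_le (by norm_num) h

lemma two_add (x y : ℝ) : (2 : ℝ) ^ (x + y) = (2 : ℝ) ^ x * (2 : ℝ) ^ y :=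
  Real.rpow_add (by norm_num) x y

theorem cla (P : Par) (h0 : PhiFacts P) (h : CdFacts P) : CLa P := by
  obtain ⟨K0, hK0⟩ := h.card
  refine ⟨max K0 1, fun k0 hk0 hfb k hk x H T hT => ?_⟩
  have hcard := hK0 k0 ((le_max_left _ _).trans hk0) hfb k hk
  obtain ⟨hν, hν1, hνκ, hνη, hνφ, hd, hs, hg, hg1, hg2⟩ := h0.small
  have hfib : ∀ b ∈ T.image (fun y => (y.1, y.2.1)),
      ((T.filter (fun y => (y.1, y.2.1) = b)).card : ℝ) ≤ H * (2 : ℝ) ^ (-((1/2 + P.κ) * k)) + 1 := by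
    intro b hb
    obtain ⟨y, hy, rfl⟩ := Finset.mem_image.1 hb
    obtain ⟨hyC, _, _⟩ := hT y hy
    have hq : 0 < y.1 := hyC.1.pos
    have hq2 : (2 : ℝ) ^ ((1/2 + P.κ) * k) ≤ y.1 := hyC.2.2.2.2.1
    set F := T.filter (fun z => (z.1, z.2.1) = (y.1, y.2.1)) with hF
    have hinj : Set.InjOn (fun z : ℕ × ℕ × ℕ => z.2.2) (F : Set (ℕ × ℕ × ℕ)) := by
      intro a ha b hb hab
      have h1 := (Finset.mem_filter.1 (Finset.mem_coe.1 ha)).2
      have h2 := (Finset.mem_filter.1 (Finset.mem_coe.1 hb)).2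
      simp only [Prod.mk.injEq] at h1 h2
      simp only at hab
      ext
      · rw [h1.1, h2.1]
      · rw [h1.2, h2.2]
      · exact hab
    have h3 := h.mult_count (q := y.1) (x := x) (h := H) hq (F.image (fun z => z.2.2)) (by
      intro a ha
      obtain ⟨z, hz, rfl⟩ := Finset.mem_image.1 ha
      have hz' := Finset.mem_filter.1 hz
      have h4 := hT z hz'.1
      have h5 : z.1 = y.1 := by
        have := hz'.2
        simp only [Prod.mk.injEq] at this
        exact this.1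
      rw [← h5]
      exact ⟨h4.2.1, h4.2.2⟩)
    rw [Finset.card_image_of_injOn hinj] at h3
    refine h3.trans ?_
    have h6 : (H : ℝ) / y.1 ≤ H * (2 : ℝ) ^ (-((1/2 + P.κ) * k)) := by
      rw [Real.rpow_neg (by norm_num), ← div_eq_mul_inv]
      exact div_le_div_of_nonneg_left (by positivity) (by positivity) hq2
    linarith
  have h1 := card_fiber T _ _ hfib
  have h2 : (((T.image (fun y => (y.1, y.2.1))).card : ℕ) : ℝ) ≤ (2 : ℝ) ^ ((1/2 - P.d + P.ν) * k) := by
    apply hcard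
    intro z hz
    obtain ⟨y, hy, rfl⟩ := Finset.mem_image.1 hz
    exact (hT y hy).1
  have hkr : (0 : ℝ) ≤ k := by positivity
  calc (T.card : ℝ) ≤ (2 : ℝ) ^ ((1/2 - P.d + P.ν) * k) * (H * (2 : ℝ) ^ (-((1/2 + P.κ) * k)) + 1) :=
        h1.trans (mul_le_mul_of_nonneg_right h2 (by positivity))
    _ = H * (2 : ℝ) ^ ((1/2 - P.d + P.ν) * k + (-((1/2 + P.κ) * k))) + (2 : ℝ) ^ ((1/2 - P.d + P.ν) * k) := by
        rw [two_add]; ring
    _ ≤ H * (2 : ℝ) ^ (-((P.κ - P.ν) * k)) + (2 : ℝ) ^ ((1/2 + P.ν) * k) := by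
        have hdpos : 0 < P.d := by rw [hd]; positivity
        have hdk := mul_nonneg hdpos.le hkr
        refine add_le_add (mul_le_mul_of_nonneg_left (two_le ?_) (by positivity)) (two_le ?_) <;>
          nlinarith

/-! ### C3b -/

lemma card_spaced (S : Finset ℚ) (α β δ : ℝ) (hδ : 0 < δ) (hαβ : α ≤ β)
    (hS : ∀ r ∈ S, α ≤ (r : ℝ) ∧ (r : ℝ) ≤ β)
    (hsp : ∀ r ∈ S, ∀ r' ∈ S, r ≠ r' → δ ≤ |(r : ℝ) - r'|) :
    (S.card : ℝ) ≤ 1 + (β - α) / δ := by
  have hinj : Set.InjOn (fun r : ℚ => ⌊((r : ℝ) - α) / δ⌋₊) (S : Set ℚ) := by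
    intro r hr r' hr' h
    by_contra hne
    have h1 := hsp r hr r' hr' hne
    have h2 : 0 ≤ ((r : ℝ) - α) / δ := div_nonneg (by linarith [(hS r hr).1]) hδ.le
    have h3 : 0 ≤ ((r' : ℝ) - α) / δ := div_nonneg (by linarith [(hS r' hr').1]) hδ.le
    simp only at h
    have h4 := Nat.floor_le h2
    have h5 := Nat.lt_floor_add_one (((r : ℝ) - α) / δ)
    have h6 := Nat.floor_le h3
    have h7 := Nat.lt_floor_add_one (((r' : ℝ) - α) / δ)
    rw [h] at h4 h5
    have h8 : |((r : ℝ) - α) / δ - ((r' : ℝ) - α) / δ| < 1 := by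
      rw [abs_lt]; constructor <;> linarith
    rw [← sub_div, abs_div, abs_of_pos hδ, div_lt_one hδ] at h8
    have h9 : (r : ℝ) - α - (r' - α) = r - r' := by ring
    rw [h9] at h8
    linarith
  have hsub : S.image (fun r : ℚ => ⌊((r : ℝ) - α) / δ⌋₊) ⊆ Finset.range (⌊(β - α) / δ⌋₊ + 1) := by
    intro n hn
    obtain ⟨r, hr, rfl⟩ := Finset.mem_image.1 hn
    rw [Finset.mem_range, Nat.lt_succ_iff]
    apply Nat.floor_le_floor
    have := (hS r hr).2
    gcongr
  have h1 := Finset.card_le_card hsub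
  rw [Finset.card_image_of_injOn hinj, Finset.card_range] at h1
  have h2 : (⌊(β - α) / δ⌋₊ : ℝ) ≤ (β - α) / δ := Nat.floor_le (div_nonneg (by linarith) hδ.le)
  have h3 : (S.card : ℝ) ≤ (⌊(β - α) / δ⌋₊ : ℝ) + 1 := by exact_mod_cast h1
  linarith

lemma rat_spacing (r r' : ℚ) (hne : r ≠ r') (B : ℕ) (hr : r.den < B) (hr' : r'.den < B) :
    1 / (B : ℝ) ^ 2 ≤ |(r : ℝ) - r'| := by
  have h1 : (0 : ℝ) < r.den := by exact_mod_cast r.pos
  have h2 : (0 : ℝ) < r'.den := by exact_mod_cast r'.pos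
  have h3 : (r : ℝ) = r.num / r.den := by exact_mod_cast (Rat.num_div_den r).symm
  have h4 : (r' : ℝ) = r'.num / r'.den := by exact_mod_cast (Rat.num_div_den r').symm
  have h5 : (r : ℝ) - r' = ((r.num * r'.den - r'.num * r.den : ℤ) : ℝ) / (r.den * r'.den) := by
    rw [h3, h4, div_sub_div _ _ h1.ne' h2.ne']
    push_cast
    ring
  have h6 : (r.num * r'.den - r'.num * r.den : ℤ) ≠ 0 := by
    intro h
    rw [h] at h5
    simp only [Int.cast_zero, zero_div] at h5
    apply hne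
    have : (r : ℝ) = r' := by linarith
    exact_mod_cast this
  have h7 : (1 : ℝ) ≤ |((r.num * r'.den - r'.num * r.den : ℤ) : ℝ)| := by
    rw [← Int.cast_abs]
    exact_mod_cast Int.one_le_abs h6
  rw [h5, abs_div, abs_of_pos (mul_pos h1 h2)]
  have hB : (0 : ℝ) < B := by exact_mod_cast (Nat.zero_le _).trans_lt hr
  rw [div_le_div_iff₀ (by positivity) (by positivity), one_mul]
  have h8 : (r.den : ℝ) ≤ B := by exact_mod_cast hr.le
  have h9 : (r'.den : ℝ) ≤ B := by exact_mod_cast hr'.le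
  calc (r.den : ℝ) * r'.den ≤ B * B := mul_le_mul h8 h9 h2.le hB.le
    _ = 1 * (B : ℝ) ^ 2 := by ring
    _ ≤ _ := mul_le_mul_of_nonneg_right h7 (by positivity)

lemma interval_len (x h y H Y : ℝ) (hY : 0 < Y) (hy : Y ≤ y) (hH : 0 ≤ H) (hx : 0 ≤ x)
    (hh : 0 ≤ h) : (x + h) / y - x / (y + H) ≤ h / Y + x * H / Y ^ 2 := by
  have hy0 : 0 < y := hY.trans_le hy
  have h1 : (x + h) / y - x / (y + H) = h / y + x * H / (y * (y + H)) := by
    field_simp
    ring
  rw [h1]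
  have h2 : h / y ≤ h / Y := div_le_div_of_nonneg_left hh hY hy
  have h3 : x * H / (y * (y + H)) ≤ x * H / Y ^ 2 := by
    apply div_le_div_of_nonneg_left (by positivity) (by positivity)
    nlinarith
  linarith

/-- the number of triples with fraction of denominator about `2^i`, in one cell -/
lemma clb_inner (P : Par) (hF : CdFacts P) {k : ℕ} (hk2 : 1 ≤ 2 * P.κ * k)
    (y0 H x h i : ℕ) (hy0 : 2 ^ k ≤ y0)
    (T : Finset (ℕ × ℕ × ℕ))
    (hT : ∀ y ∈ T, (y.1, y.2.1) ∈ P.Cd k ∧ x ≤ y.1 * y.2.2 ∧ y.1 * y.2.2 < x + h ∧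
      ¬ y.2.1 ∣ y.2.2 ∧ y0 ≤ y.1 * y.2.1 ∧ y.1 * y.2.1 < y0 + H ∧
      Nat.log 2 (((y.2.2 : ℚ) / y.2.1).den) = i) :
    (T.card : ℝ) ≤ (1 + 4 ^ (i + 1) * (h / 2 ^ k + x * H / (2 ^ k) ^ 2)) * (H / 2 ^ i + 1) := by
  have hy0' : (0 : ℝ) < y0 := by
    have : 0 < y0 := lt_of_lt_of_le (by positivity) hy0
    exact_mod_cast this
  have hfib : ∀ b ∈ T.image (fun y => (y.2.2 : ℚ) / y.2.1),
      ((T.filter (fun y => (y.2.2 : ℚ) / y.2.1 = b)).card : ℝ) ≤ (H : ℝ) / 2 ^ i + 1 := by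
    intro b hb
    obtain ⟨z, hz, rfl⟩ := Finset.mem_image.1 hb
    set r : ℚ := (z.2.2 : ℚ) / z.2.1 with hr
    set F := T.filter (fun y => (y.2.2 : ℚ) / y.2.1 = r) with hF'
    have hlog : Nat.log 2 r.den = i := (hT z hz).2.2.2.2.2.2
    have hden : 2 ^ i ≤ r.den := by
      rw [← hlog]
      exact Nat.pow_log_le_self 2 r.den_nz
    have hdvd : ∀ y ∈ F, r.den ∣ y.1 * y.2.1 := by
      intro y hy
      have h1 := (Finset.mem_filter.1 hy).2
      have h2 : r.den ∣ y.2.1 := by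
        rw [← h1]
        have h3 := Rat.den_dvd (y.2.2 : ℤ) (y.2.1 : ℤ)
        rw [Rat.divInt_eq_div, Int.cast_natCast, Int.cast_natCast] at h3
        exact Int.natCast_dvd_natCast.1 h3
      exact h2.mul_left _
    have hinj : Set.InjOn (fun y : ℕ × ℕ × ℕ => y.1 * y.2.1 / r.den) (F : Set (ℕ × ℕ × ℕ)) := by
      intro y hy y' hy' hyy
      have hy1 := Finset.mem_filter.1 (Finset.mem_coe.1 hy)
      have hy1' := Finset.mem_filter.1 (Finset.mem_coe.1 hy')
      have h1 := hdvd y hy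
      have h2 := hdvd y' hy'
      simp only at hyy
      have h3 : y.1 * y.2.1 = y'.1 * y'.2.1 := by
        rw [← Nat.div_mul_cancel h1, ← Nat.div_mul_cancel h2, hyy]
      have h4 := hF.unique hk2 (hT y hy1.1).1 (hT y' hy1'.1).1 h3
      simp only [Prod.mk.injEq] at h4
      have h5 : ((y.2.2 : ℚ)) = y'.2.2 := by
        have h6 := hy1.2.trans hy1'.2.symm
        have h7 : (0 : ℚ) < y.2.1 := by exact_mod_cast (hT y hy1.1).1.2.1
        rw [← h4.2] at h6
        field_simp at h6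
        exact h6
      ext
      · exact h4.1
      · exact h4.2
      · exact_mod_cast h5
    have h3 := hF.mult_count (q := r.den) (x := y0) (h := H) r.pos
      (F.image (fun y : ℕ × ℕ × ℕ => y.1 * y.2.1 / r.den)) (by
      intro a ha
      obtain ⟨y, hy, rfl⟩ := Finset.mem_image.1 ha
      rw [Nat.mul_div_cancel' (hdvd y hy)]
      have := hT y (Finset.mem_filter.1 hy).1
      exact ⟨this.2.2.2.2.1, this.2.2.2.2.2.1⟩)
    rw [Finset.card_image_of_injOn hinj] at h3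
    refine h3.trans ?_
    have h4 : (H : ℝ) / r.den ≤ H / 2 ^ i :=
      div_le_div_of_nonneg_left (by positivity) (by positivity) (by exact_mod_cast hden)
    linarith
  have h1 := card_fiber T _ _ hfib
  have h2 : (((T.image (fun y => (y.2.2 : ℚ) / y.2.1)).card : ℕ) : ℝ) ≤
      1 + 4 ^ (i + 1) * (h / 2 ^ k + x * H / (2 ^ k) ^ 2) := by
    have h3 := card_spaced (T.image (fun y => (y.2.2 : ℚ) / y.2.1))
      ((x : ℝ) / (y0 + H)) (((x : ℝ) + h) / y0) (1 / ((2 ^ (i + 1) : ℕ) : ℝ) ^ 2) (by positivity)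
      (div_le_div₀ (by positivity) (by linarith [Nat.cast_nonneg (α := ℝ) h]) hy0'
        (by linarith [Nat.cast_nonneg (α := ℝ) H])) (by
        intro r hr
        obtain ⟨y, hy, rfl⟩ := Finset.mem_image.1 hr
        have hy1 := hT y hy
        have hm : (0 : ℝ) < y.2.1 := by exact_mod_cast hy1.1.2.1
        have hq : (0 : ℝ) < y.1 := by exact_mod_cast hy1.1.1.pos
        have e1 : (x : ℝ) ≤ y.1 * y.2.2 := by exact_mod_cast hy1.2.1
        have e2 : (y.1 : ℝ) * y.2.2 ≤ x + h := by exact_mod_cast hy1.2.2.1.le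
        have e3 : (y0 : ℝ) ≤ y.1 * y.2.1 := by exact_mod_cast hy1.2.2.2.2.1
        have e4 : (y.1 : ℝ) * y.2.1 ≤ y0 + H := by exact_mod_cast hy1.2.2.2.2.2.1.le
        have e5 : (((y.2.2 : ℚ) / y.2.1 : ℚ) : ℝ) = (y.1 * y.2.2 : ℝ) / (y.1 * y.2.1) := by
          push_cast
          field_simp
        rw [e5]
        constructor
        · exact div_le_div₀ (by positivity) e1 (by positivity) e4
        · exact div_le_div₀ (by positivity) e2 hy0' e3)
      (by
        intro r hr r' hr' hne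
        obtain ⟨y, hy, rfl⟩ := Finset.mem_image.1 hr
        obtain ⟨y', hy', rfl⟩ := Finset.mem_image.1 hr'
        apply rat_spacing _ _ hne
        · rw [← (hT y hy).2.2.2.2.2.2]
          exact Nat.lt_pow_succ_log_self (by norm_num) _
        · rw [← (hT y' hy').2.2.2.2.2.2]
          exact Nat.lt_pow_succ_log_self (by norm_num) _)
    refine h3.trans ?_
    have h4 := interval_len x h y0 H (2 ^ k) (by positivity) (by exact_mod_cast hy0)
      (by positivity) (by positivity) (by positivity)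
    have h5 : (1 : ℝ) / ((2 ^ (i + 1) : ℕ) : ℝ) ^ 2 = 1 / 4 ^ (i + 1) := by
      push_cast
      rw [← pow_mul, mul_comm, pow_mul]
      norm_num
    rw [h5, div_div_eq_mul_div, div_one, mul_comm]
    have h6 : (0 : ℝ) < 4 ^ (i + 1) := by positivity
    have := mul_le_mul_of_nonneg_left h4 h6.le
    linarith
  exact h1.trans (mul_le_mul_of_nonneg_right h2 (by positivity))

theorem clb (P : Par) (h0 : PhiFacts P) (hc : CellFacts P) (h : CdFacts P) : CLb P := by
  obtain ⟨hν, hν1, hνκ, hνη, hνφ, hd, hs, hg, hg1, hg2⟩ := h0.small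
  obtain ⟨K1, hK1⟩ := absorb (88 * P.ν) (by positivity) 150
  obtain ⟨K2, hK2⟩ := exists_nat_gt (1 / P.κ)
  refine ⟨max (max K1 K2) 2, fun k0 hk0 hfb k k' hk hk' hkk1 hkk2 x H hx hxh hH T hT => ?_⟩
  have hκ := P.κ0
  have hη := P.η0
  have hκ1 := P.κ1
  have hη1 := P.η1
  have hk0a : K1 ≤ k0 := ((le_max_left _ _).trans (le_max_left _ _)).trans hk0
  have hk0b : K2 ≤ k0 := ((le_max_right _ _).trans (le_max_left _ _)).trans hk0
  have hk0c : 2 ≤ k0 := (le_max_right _ _).trans hk0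
  have hk2 : 2 ≤ k := hk0c.trans hk
  have hkr : (2 : ℝ) ≤ k := by exact_mod_cast hk2
  have hk'r : (2 : ℝ) ≤ k' := by exact_mod_cast hk0c.trans hk'
  have hkκ : 1 ≤ 2 * P.κ * k := by
    have h1 : 1 / P.κ < (k : ℝ) := hK2.trans_le (by exact_mod_cast hk0b.trans hk)
    rw [div_lt_iff₀ hκ] at h1
    nlinarith
  set w : ℝ := 15 * P.ν with hw
  have hw0 : 0 < w := by positivity
  have hw1 : w ≤ 15 / 1600 := by linarith
  set Z : ℝ := (2 : ℝ) ^ ((1/2 - 190 * P.ν) * k') with hZ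
  have hZ1 : 1 ≤ Z := by
    rw [hZ, show (1 : ℝ) = (2 : ℝ) ^ (0 : ℝ) by simp]
    apply two_le
    apply mul_nonneg <;> linarith
  -- cells
  have hkprod : (k : ℝ) ≤ (1 + w) * k' := hkk2
  have hkprod1 : (1 - w) * k' ≤ (k : ℝ) := hkk1
  set U := (Finset.range (2 ^ (k - P.e k))).filter (fun j => P.bad k j) with hU
  have hcell : ∀ y ∈ T, y.1 * y.2.1 ∈ P.cell k (P.idx (y.1 * y.2.1)) ∧
      P.idx (y.1 * y.2.1) ∈ U := by
    intro y hy
    have hC := (hT y hy).1
    have hne : y.1 * y.2.1 ≠ 0 := Nat.mul_ne_zero hC.1.ne_zero hC.2.1.ne'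
    have hlog : Nat.log 2 (y.1 * y.2.1) = k := h.block hC
    have hlt := hc.idx_lt hne
    rw [hlog] at hlt
    refine ⟨(hc.mem_cell hlt).2 ⟨hne, hlog, rfl⟩, Finset.mem_filter.2 ⟨Finset.mem_range.2 hlt, ?_⟩⟩
    have hb : P.badN (y.1 * y.2.1) := hC.2.2.2.2.2.2
    unfold Par.badN at hb
    rw [hlog] at hb
    exact hb
  have hUcard : (U.card : ℝ) ≤ (2 : ℝ) ^ (2 * P.ν * k') := by
    refine (hfb k hk).trans (two_le ?_)
    nlinarith
  -- real estimates
  have he : (2 : ℝ) ^ P.e k ≤ (2 : ℝ) ^ ((k : ℝ) / 2) := by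
    rw [← Real.rpow_natCast]
    apply two_le
    have h1 : (P.e k : ℝ) ≤ (k : ℝ) * (1/2 - P.d) := by
      apply Nat.floor_le
      apply mul_nonneg (by positivity)
      rw [hd]; linarith
    have h2 : 0 ≤ P.d := by rw [hd]; positivity
    nlinarith
  have hinner : ∀ j ∈ U, ((T.filter (fun y => P.idx (y.1 * y.2.1) = j)).card : ℝ) ≤
      150 * (k' + 1) * Z := by
    intro j hj
    set T1 := T.filter (fun y => P.idx (y.1 * y.2.1) = j) with hT1
    have hsub : ∀ i ∈ Finset.range (k + 1),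
        ((T1.filter (fun y => Nat.log 2 (((y.2.2 : ℚ) / y.2.1).den) = i)).card : ℝ) ≤ 75 * Z := by
      intro i _
      set T2 := T1.filter (fun y => Nat.log 2 (((y.2.2 : ℚ) / y.2.1).den) = i) with hT2
      rcases T2.eq_empty_or_nonempty with hemp | ⟨z, hz⟩
      · rw [hemp]; simp; linarith
      have hz2 := Finset.mem_filter.1 hz
      have hz1 := Finset.mem_filter.1 hz2.1
      have hz0 := hT z hz1.1
      have hcnt := clb_inner P h hkκ (2 ^ k + j * 2 ^ P.e k) (2 ^ P.e k) x H i (by omega) T2 (by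
        intro y hy
        have hy2 := Finset.mem_filter.1 hy
        have hy1 := Finset.mem_filter.1 hy2.1
        have hy0 := hT y hy1.1
        have hm := (hcell y hy1.1).1
        rw [hy1.2] at hm
        unfold Par.cell at hm
        rw [Finset.mem_Ico] at hm
        refine ⟨hy0.1, hy0.2.1, hy0.2.2.1, hy0.2.2.2, hm.1, ?_, hy2.2⟩
        have e1 : 2 ^ k + j * 2 ^ P.e k + 2 ^ P.e k = 2 ^ k + (j + 1) * 2 ^ P.e k := by ring
        rw [e1]
        exact hm.2)
      refine hcnt.trans ?_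
      -- size of the denominator
      set m := z.2.1 with hm
      set r : ℚ := (z.2.2 : ℚ) / m with hr
      have hm0 : 0 < m := hz0.1.2.1
      have hrdvd : r.den ∣ m := by
        have h3 := Rat.den_dvd (z.2.2 : ℤ) (m : ℤ)
        rw [Rat.divInt_eq_div, Int.cast_natCast, Int.cast_natCast] at h3
        exact Int.natCast_dvd_natCast.1 h3
      have hrne : r.den ≠ 1 := by
        intro h1
        apply hz0.2.2.2
        have h2 : ((r.num : ℤ) : ℚ) = r := by
          have := Rat.num_div_den r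
          rw [h1] at this
          simpa using this
        have h3 : (z.2.2 : ℚ) = r.num * m := by
          rw [h2, hr]
          have : (m : ℚ) ≠ 0 := by exact_mod_cast hm0.ne'
          field_simp
        have h4 : (z.2.2 : ℤ) = r.num * m := by exact_mod_cast h3
        have h5 : (m : ℤ) ∣ (z.2.2 : ℤ) := ⟨r.num, by rw [h4]; ring⟩
        exact_mod_cast h5
      obtain ⟨p, hp, hpd⟩ := Nat.exists_prime_and_dvd hrne
      have hpη : (2 : ℝ) ^ (P.η * k) ≤ p := hz0.1.2.2.2.2.2.1 p hp (hpd.trans hrdvd)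
      have hpr : (p : ℝ) ≤ r.den := by exact_mod_cast Nat.le_of_dvd r.pos hpd
      have hi1 : (2 : ℝ) ^ i ≤ r.den := by
        have := Nat.pow_log_le_self 2 r.den_nz
        rw [hz2.2] at this
        exact_mod_cast this
      have hi2 : (r.den : ℝ) ≤ 2 ^ (i + 1) := by
        have := Nat.lt_pow_succ_log_self (b := 2) (by norm_num) r.den
        rw [hz2.2] at this
        exact_mod_cast this.le
      have hi3 : (r.den : ℝ) ≤ m := by exact_mod_cast Nat.le_of_dvd hm0 hrdvd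
      have hmD : (m : ℝ) ≤ (2 : ℝ) ^ ((1/2 - P.κ) * k + 1) := (h.cof hk2 hz0.1).1
      set D : ℝ := (2 : ℝ) ^ ((1/2 - P.κ) * k + 1) with hD
      have hXD : (2 : ℝ) ^ i ≤ D := hi1.trans (hi3.trans hmD)
      set X : ℝ := (2 : ℝ) ^ i with hX
      have hX0 : 0 < X := by positivity
      have hX1 : (2 : ℝ) ^ (P.η * k) ≤ 2 * X := by
        have : (2 : ℝ) ^ (i + 1) = 2 * X := by rw [hX]; ring
        linarith
      set H0 : ℝ := (2 : ℝ) ^ ((k : ℝ) / 2) with hH0
      have hcast : (((2 ^ P.e k : ℕ) : ℕ) : ℝ) = (2 : ℝ) ^ P.e k := by push_cast; rfl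
      rw [hcast]
      set l : ℝ := (H : ℝ) / 2 ^ k + x * 2 ^ P.e k / (2 ^ k) ^ 2 with hl
      set l0 : ℝ := (2 : ℝ) ^ ((k' : ℝ) / 2 - k) + (2 : ℝ) ^ ((k' : ℝ) + 1 - 3 * k / 2) with hl0
      have hl0' : 0 ≤ l0 := by positivity
      have hll : l ≤ l0 := by
        have e1 : (H : ℝ) / 2 ^ k ≤ (2 : ℝ) ^ ((k' : ℝ) / 2 - k) := by
          rw [Real.rpow_sub (by norm_num), Real.rpow_natCast]
          gcongr
        have e2 : (x : ℝ) * 2 ^ P.e k / (2 ^ k) ^ 2 ≤ (2 : ℝ) ^ ((k' : ℝ) + 1 - 3 * k / 2) := by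
          have e3 : (2 : ℝ) ^ ((k' : ℝ) + 1 - 3 * k / 2) =
              (2 : ℝ) ^ ((k' : ℝ) + 1) * H0 / (2 ^ k) ^ 2 := by
            rw [hH0, ← two_add, ← Real.rpow_natCast (2 : ℝ) k, ← Real.rpow_natCast _ 2,
              ← Real.rpow_mul (by norm_num), ← Real.rpow_sub (by norm_num)]
            congr 1
            push_cast
            ring
          rw [e3]
          have e4 : (x : ℝ) ≤ (2 : ℝ) ^ ((k' : ℝ) + 1) := by
            have : (x : ℝ) ≤ ((2 ^ (k' + 1) : ℕ) : ℝ) := by exact_mod_cast (by omega : x ≤ 2 ^ (k' + 1))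
            rw [show ((k' : ℝ) + 1) = ((k' + 1 : ℕ) : ℝ) by push_cast; ring, Real.rpow_natCast]
            exact_mod_cast this
          gcongr
        linarith
      have hl00 : 0 ≤ l := by positivity
      have hHX : (2 : ℝ) ^ P.e k / X ≤ 2 * Z := by
        rw [div_le_iff₀ hX0]
        have e1 : (2 : ℝ) ^ ((k : ℝ) / 2) = (2 : ℝ) ^ ((1/2 - P.η) * k) * (2 : ℝ) ^ (P.η * k) := by
          rw [← two_add]; congr 1; ring
        have e2 : (2 : ℝ) ^ ((1/2 - P.η) * k) ≤ Z := by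
          apply two_le
          have : (1/2 - P.η) * k ≤ (1/2 - P.η) * ((1 + w) * k') :=
            mul_le_mul_of_nonneg_left hkprod (by linarith)
          have h3 : (1/2 - P.η) * ((1 + w) * k') ≤ (1/2 - P.η + w / 2) * k' := by
            nlinarith [mul_nonneg hη.le (mul_nonneg hw0.le (by linarith : (0 : ℝ) ≤ k'))]
          have h4 : (1/2 - P.η + w / 2) * k' ≤ (1/2 - 190 * P.ν) * k' :=
            mul_le_mul_of_nonneg_right (by rw [hw]; linarith) (by linarith)
          linarith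
        calc (2 : ℝ) ^ P.e k ≤ (2 : ℝ) ^ ((1/2 - P.η) * k) * (2 : ℝ) ^ (P.η * k) := by
              rw [← e1]; exact he
          _ ≤ Z * (2 * X) := mul_le_mul e2 hX1 (by positivity) (by linarith)
          _ = 2 * Z * X := by ring
      have hlHX : l * (2 : ℝ) ^ P.e k * X ≤ 6 * Z := by
        have e0 : l * (2 : ℝ) ^ P.e k * X ≤ l0 * H0 * D := by gcongr
        have e1 : l0 * H0 * D = (2 : ℝ) ^ ((k' : ℝ) / 2 - P.κ * k + 1) +
            (2 : ℝ) ^ ((k' : ℝ) + 2 - k / 2 - P.κ * k) := by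
          rw [hl0, hH0, hD, add_mul, add_mul, ← two_add, ← two_add, ← two_add, ← two_add]
          congr 2 <;> ring
        have e2 : (2 : ℝ) ^ ((k' : ℝ) / 2 - P.κ * k + 1) ≤ 2 * Z := by
          rw [two_add, Real.rpow_one, mul_comm]
          apply mul_le_mul_of_nonneg_left _ (by norm_num)
          apply two_le
          nlinarith [mul_le_mul_of_nonneg_left hkprod1 hκ.le]
        have e3 : (2 : ℝ) ^ ((k' : ℝ) + 2 - k / 2 - P.κ * k) ≤ 4 * Z := by
          rw [show ((k' : ℝ) + 2 - k / 2 - P.κ * k) = ((k' : ℝ) - k / 2 - P.κ * k) + (2 : ℕ) by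
            push_cast; ring, two_add, Real.rpow_natCast, mul_comm]
          apply mul_le_mul _ _ (by positivity) (by positivity)
          · norm_num
          · apply two_le
            nlinarith [mul_le_mul_of_nonneg_left hkprod1 hκ.le]
        linarith
      have hlXX : l * X ^ 2 ≤ 12 * Z := by
        have e0 : l * X ^ 2 ≤ l0 * D ^ 2 := by gcongr
        have e1 : l0 * D ^ 2 = (2 : ℝ) ^ ((k' : ℝ) / 2 - 2 * P.κ * k + 2) +
            (2 : ℝ) ^ ((k' : ℝ) + 3 - k / 2 - 2 * P.κ * k) := by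
          rw [hl0, hD, sq, ← two_add, add_mul, ← two_add, ← two_add]
          congr 2 <;> ring
        have e2 : (2 : ℝ) ^ ((k' : ℝ) / 2 - 2 * P.κ * k + 2) ≤ 4 * Z := by
          rw [show ((k' : ℝ) / 2 - 2 * P.κ * k + 2) = ((k' : ℝ) / 2 - 2 * P.κ * k) + (2 : ℕ) by
            push_cast; ring, two_add, Real.rpow_natCast, mul_comm]
          apply mul_le_mul _ _ (by positivity) (by positivity)
          · norm_num
          · apply two_le
            nlinarith [mul_le_mul_of_nonneg_left hkprod1 hκ.le]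
        have e3 : (2 : ℝ) ^ ((k' : ℝ) + 3 - k / 2 - 2 * P.κ * k) ≤ 8 * Z := by
          rw [show ((k' : ℝ) + 3 - k / 2 - 2 * P.κ * k) =
            ((k' : ℝ) - k / 2 - 2 * P.κ * k) + (3 : ℕ) by
            push_cast; ring, two_add, Real.rpow_natCast, mul_comm]
          apply mul_le_mul _ _ (by positivity) (by positivity)
          · norm_num
          · apply two_le
            nlinarith [mul_le_mul_of_nonneg_left hkprod1 hκ.le]
        linarith
      have h4i : (4 : ℝ) ^ (i + 1) = 4 * X ^ 2 := by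
        rw [hX, pow_succ, ← pow_mul, mul_comm i 2, pow_mul]
        norm_num
        ring
      rw [h4i]
      have e5 : (1 + 4 * X ^ 2 * l) * ((2 : ℝ) ^ P.e k / X + 1) =
          (2 : ℝ) ^ P.e k / X + 1 + 4 * (l * (2 : ℝ) ^ P.e k * X) + 4 * (l * X ^ 2) := by
        field_simp
        ring
      rw [e5]
      linarith
    have hmem : ∀ y ∈ T1, Nat.log 2 (((y.2.2 : ℚ) / y.2.1).den) ∈ Finset.range (k + 1) := by
      intro y hy
      have hy1 := Finset.mem_filter.1 hy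
      have hC := (hT y hy1.1).1
      rw [Finset.mem_range, Nat.lt_succ_iff]
      have h1 : (((y.2.2 : ℚ) / y.2.1).den) ∣ y.2.1 := by
        have h3 := Rat.den_dvd (y.2.2 : ℤ) (y.2.1 : ℤ)
        rw [Rat.divInt_eq_div, Int.cast_natCast, Int.cast_natCast] at h3
        exact Int.natCast_dvd_natCast.1 h3
      have h2 : y.2.1 ≤ y.1 * y.2.1 := Nat.le_mul_of_pos_left _ hC.1.pos
      have h3 := Nat.le_of_dvd hC.2.1 h1
      rw [← h.block hC]
      exact Nat.log_mono_right (h3.trans h2)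
    have h1 := card_fiber' T1 _ _ hmem _ hsub
    rw [Finset.sum_const, Finset.card_range, nsmul_eq_mul] at h1
    refine h1.trans ?_
    have h2 : ((k + 1 : ℕ) : ℝ) ≤ 2 * (k' + 1) := by
      push_cast
      nlinarith
    calc ((k + 1 : ℕ) : ℝ) * (75 * Z) ≤ (2 * (k' + 1)) * (75 * Z) :=
          mul_le_mul_of_nonneg_right h2 (by linarith)
      _ = _ := by ring
  have h1 := card_fiber' T _ U (fun y hy => (hcell y hy).2) _ hinner
  rw [Finset.sum_const, nsmul_eq_mul] at h1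
  have h2 := hK1 k' (hk0a.trans hk')
  calc (T.card : ℝ) ≤ U.card * (150 * (k' + 1) * Z) := h1
    _ ≤ (2 : ℝ) ^ (2 * P.ν * k') * ((2 : ℝ) ^ (88 * P.ν * k') * Z) := by gcongr
    _ = (2 : ℝ) ^ ((1/2 - 100 * P.ν) * k') := by
        rw [hZ, ← two_add, ← two_add]
        congr 1
        ring

end Pool.Agent.Helper2.QRH
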