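import Pool.Agent.Helper2.QRH.C3

set_option autoImplicit false
open scoped Classical

namespace Pool.Agent.Helper2.QRH

open Pool.Agent.Helper10.QRH

lemma card_nat_interval (S : Finset ℕ) (α β : ℝ) (hαβ : α ≤ β)
    (hS : ∀ n ∈ S, α ≤ (n : ℝ) ∧ (n : ℝ) ≤ β) : (S.card : ℝ) ≤ 1 + (β - α) := by
  have hinj : Set.InjOn (fun n : ℕ => (n : ℚ)) (S : Set ℕ) := fun a _ b _ h => by
    simpa using h
  have h := card_spaced (S.image (fun n : ℕ => (n : ℚ))) α β 1 (by norm_num) hαβ (by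
    intro r hr
    obtain ⟨n, hn, rfl⟩ := Finset.mem_image.1 hr
    have := hS n hn
    simpa using this) (by
    intro r hr r' hr' hne
    obtain ⟨n, hn, rfl⟩ := Finset.mem_image.1 hr
    obtain ⟨n', hn', rfl⟩ := Finset.mem_image.1 hr'
    have h1 : (n : ℤ) - n' ≠ 0 := by
      intro h2
      apply hne
      have : (n : ℤ) = n' := by linarith
      exact_mod_cast this
    have h2 := Int.one_le_abs h1
    have h3 : (1 : ℝ) ≤ |(((n : ℤ) - n' : ℤ) : ℝ)| := by
      rw [← Int.cast_abs]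
      exact_mod_cast h2
    push_cast at h3 ⊢
    simpa using h3)
  rw [Finset.card_image_of_injOn hinj, div_one] at h
  exact h

/-- the number of triples with given `a`, in one cell -/
lemma clc_inner (P : Par) (hF : CdFacts P) {k : ℕ}
    (y0 H x h a : ℕ) (hy0 : 0 < y0) (hx : 0 < x) (ha : 0 < a)
    (T : Finset (ℕ × ℕ × ℕ))
    (hT : ∀ y ∈ T, (y.1, y.2.1) ∈ P.Cd k ∧ x ≤ y.1 * y.2.2 ∧ y.1 * y.2.2 < x + h ∧
      y0 ≤ y.1 * y.2.1 ∧ y.1 * y.2.1 < y0 + H ∧ y.2.2 = a) :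
    (T.card : ℝ) ≤ (1 + a * (H / x + y0 * h / (x : ℝ) ^ 2)) * (H * (x + h) / y0 / a + 1) := by
  have hy0' : (0 : ℝ) < y0 := by exact_mod_cast hy0
  have hx' : (0 : ℝ) < x := by exact_mod_cast hx
  have ha' : (0 : ℝ) < a := by exact_mod_cast ha
  have hh' : (0 : ℝ) ≤ h := by positivity
  have hH' : (0 : ℝ) ≤ H := by positivity
  set α : ℝ := y0 * a / (x + h) with hα
  set β : ℝ := (y0 + H) * a / x with hβ
  have hmem : ∀ y ∈ T, α ≤ (y.2.1 : ℝ) ∧ (y.2.1 : ℝ) ≤ β := by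
    intro y hy
    have hy1 := hT y hy
    have hq : (0 : ℝ) < y.1 := by exact_mod_cast hy1.1.1.pos
    have e1 : (x : ℝ) ≤ y.1 * a := by rw [← hy1.2.2.2.2.2]; exact_mod_cast hy1.2.1
    have e2 : (y.1 : ℝ) * a ≤ x + h := by rw [← hy1.2.2.2.2.2]; exact_mod_cast hy1.2.2.1.le
    have e3 : (y0 : ℝ) ≤ y.1 * y.2.1 := by exact_mod_cast hy1.2.2.2.1
    have e4 : (y.1 : ℝ) * y.2.1 ≤ y0 + H := by exact_mod_cast hy1.2.2.2.2.1.le
    have e5 : (0 : ℝ) < y.2.1 := by exact_mod_cast hy1.1.2.1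
    constructor
    · rw [hα, div_le_iff₀ (by positivity)]
      calc (y0 : ℝ) * a ≤ (y.1 * y.2.1) * a := by gcongr
        _ = y.2.1 * (y.1 * a) := by ring
        _ ≤ y.2.1 * (x + h) := by gcongr
    · rw [hβ, le_div_iff₀ hx']
      calc (y.2.1 : ℝ) * x ≤ y.2.1 * (y.1 * a) := by gcongr
        _ = (y.1 * y.2.1) * a := by ring
        _ ≤ (y0 + H) * a := by gcongr
  have hα0 : 0 < α := by positivity
  have hfib : ∀ b ∈ T.image (fun y => y.2.1),
      ((T.filter (fun y => y.2.1 = b)).card : ℝ) ≤ (H : ℝ) * (x + h) / y0 / a + 1 := by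
    intro b hb
    obtain ⟨z, hz, rfl⟩ := Finset.mem_image.1 hb
    set F := T.filter (fun y => y.2.1 = z.2.1) with hF'
    have hm0 : 0 < z.2.1 := (hT z hz).1.2.1
    have hinj : Set.InjOn (fun y : ℕ × ℕ × ℕ => y.1) (F : Set (ℕ × ℕ × ℕ)) := by
      intro y hy y' hy' hyy
      have hy1 := Finset.mem_filter.1 (Finset.mem_coe.1 hy)
      have hy1' := Finset.mem_filter.1 (Finset.mem_coe.1 hy')
      ext
      · exact hyy
      · rw [hy1.2, hy1'.2]
      · rw [(hT y hy1.1).2.2.2.2.2, (hT y' hy1'.1).2.2.2.2.2]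
    have h3 := hF.mult_count (q := z.2.1) (x := y0) (h := H) hm0
      (F.image (fun y : ℕ × ℕ × ℕ => y.1)) (by
      intro a' ha'
      obtain ⟨y, hy, rfl⟩ := Finset.mem_image.1 ha'
      have hy1 := Finset.mem_filter.1 hy
      have := hT y hy1.1
      rw [← hy1.2, mul_comm]
      exact ⟨this.2.2.2.1, this.2.2.2.2.1⟩)
    rw [Finset.card_image_of_injOn hinj] at h3
    refine h3.trans ?_
    have h4 : (H : ℝ) / z.2.1 ≤ H / α :=
      div_le_div_of_nonneg_left (by positivity) hα0 (hmem z hz).1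
    have h5 : (H : ℝ) / α = H * (x + h) / y0 / a := by
      rw [hα]; field_simp
    linarith
  rcases T.eq_empty_or_nonempty with hemp | ⟨z, hz⟩
  · rw [hemp]
    simp only [Finset.card_empty, Nat.cast_zero]
    positivity
  have h1 := card_fiber T _ _ hfib
  have h2 : (((T.image (fun y => y.2.1)).card : ℕ) : ℝ) ≤
      1 + a * (H / x + y0 * h / (x : ℝ) ^ 2) := by
    have h3 := card_nat_interval (T.image (fun y => y.2.1)) α β ((hmem z hz).1.trans (hmem z hz).2) (by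
        intro r hr
        obtain ⟨y, hy, rfl⟩ := Finset.mem_image.1 hr
        exact hmem y hy)
    refine h3.trans ?_
    have h4 : β - α = a * (H / x + y0 * h / (x * (x + h))) := by
      rw [hα, hβ]
      field_simp
      ring
    have h5 : (y0 : ℝ) * h / (x * (x + h)) ≤ y0 * h / (x : ℝ) ^ 2 := by
      apply div_le_div_of_nonneg_left (by positivity) (by positivity)
      nlinarith
    rw [h4]
    gcongr
  exact h1.trans (mul_le_mul_of_nonneg_right h2 (by positivity))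

lemma sum_inv_le (N K : ℕ) (hN : N ≤ 2 ^ K) : ∑ a ∈ Finset.Icc 1 N, (1 : ℝ) / a ≤ 1 + K := by
  have h1 : ∑ a ∈ Finset.Icc 1 N, (1 : ℝ) / a = ((harmonic N : ℚ) : ℝ) := by
    rw [harmonic_eq_sum_Icc]
    push_cast
    apply Finset.sum_congr rfl
    intro a _
    rw [one_div]
  rw [h1]
  refine (harmonic_le_one_add_log N).trans ?_
  rcases Nat.eq_zero_or_pos N with rfl | hpos
  · simp
  · have h2 : Real.log N ≤ Real.log ((2 : ℝ) ^ K) := by
      apply Real.log_le_log (by exact_mod_cast hpos)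
      exact_mod_cast hN
    rw [Real.log_pow] at h2
    have h3 : Real.log 2 ≤ 1 := by
      have := Real.log_two_lt_d9; linarith
    have h4 : (K : ℝ) * Real.log 2 ≤ K * 1 := by gcongr
    linarith

theorem clc (P : Par) (h0 : PhiFacts P) (hc : CellFacts P) (h : CdFacts P) : CLc P := by
  obtain ⟨hν, hν1, hνκ, hνη, hνφ, hd, hs, hg, hg1, hg2⟩ := h0.small
  obtain ⟨K1, hK1⟩ := absorb (0.09 * P.ν) (by positivity) 40
  refine ⟨max K1 2, fun k0 hk0 hfb k k' hk hk' ϖ hϖ1 hϖ2 hkk x H hx hxh hH T hT => ?_⟩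
  have hκ := P.κ0
  have hκ1 := P.κ1
  have hk0a : K1 ≤ k0 := (le_max_left _ _).trans hk0
  have hk0c : 2 ≤ k0 := (le_max_right _ _).trans hk0
  have hkr : (2 : ℝ) ≤ k := by exact_mod_cast hk0c.trans hk
  have hk'r : (2 : ℝ) ≤ k' := by exact_mod_cast hk0c.trans hk'
  have hϖ0 : 0 < ϖ := by linarith
  have hk'k : (k' : ℝ) ≤ k := by nlinarith
  set Z : ℝ := (2 : ℝ) ^ ((1/2 - ϖ / 2 + 1.01 * P.ν) * k') with hZ
  have hZ0 : 0 < Z := by positivity
  -- cells
  set U := (Finset.range (2 ^ (k - P.e k))).filter (fun j => P.bad k j) with hU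
  have hcell : ∀ y ∈ T, y.1 * y.2.1 ∈ P.cell k (P.idx (y.1 * y.2.1)) ∧
      P.idx (y.1 * y.2.1) ∈ U := by
    intro y hy
    have hC := (hT y hy).1
    have hne : y.1 * y.2.1 ≠ 0 := Nat.mul_ne_zero hC.1.ne_zero hC.2.1.ne'
    have hlog : Nat.log 2 (y.1 * y.2.1) = k := h.block hC
    have hlt := hc.idx_lt hne
    rw [hlog] at hlt
    refine ⟨(hc.mem_cell hlt).2 ⟨hne, hlog, rfl⟩, Finset.mem_filter.2 ⟨Finset.mem_range.2 hlt, ?_⟩⟩
    have hb : P.badN (y.1 * y.2.1) := hC.2.2.2.2.2.2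
    unfold Par.badN at hb
    rw [hlog] at hb
    exact hb
  have hUcard : (U.card : ℝ) ≤ (2 : ℝ) ^ (P.ν * k) := hfb k hk
  have he : (2 : ℝ) ^ P.e k ≤ (2 : ℝ) ^ ((k : ℝ) / 2) := by
    rw [← Real.rpow_natCast]
    apply two_le
    have h1 : (P.e k : ℝ) ≤ (k : ℝ) * (1/2 - P.d) := by
      apply Nat.floor_le
      apply mul_nonneg (by positivity)
      rw [hd]; linarith
    have h2 : 0 ≤ P.d := by rw [hd]; positivity
    nlinarith
  have hx0 : 0 < x := lt_of_lt_of_le (by positivity) hx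
  have hx1 : (2 : ℝ) ^ (k' : ℝ) ≤ x := by
    rw [Real.rpow_natCast]; exact_mod_cast hx
  have hx2 : (x : ℝ) + H ≤ (2 : ℝ) ^ ((k' : ℝ) + 1) := by
    rw [show ((k' : ℝ) + 1) = ((k' + 1 : ℕ) : ℝ) by push_cast; ring, Real.rpow_natCast]
    exact_mod_cast hxh
  set A : ℝ := (2 : ℝ) ^ ((k' : ℝ) + 1 - (1/2 + P.κ) * k) with hA
  set L : ℝ := (2 : ℝ) ^ ((k : ℝ) + 2 - 3 * k' / 2) with hL
  set M : ℝ := (2 : ℝ) ^ ((k' : ℝ) + 1 - k / 2) with hM
  have hA0 : 0 < A := by positivity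
  have hL0 : 0 < L := by positivity
  have hM0 : 0 < M := by positivity
  set N : ℕ := ⌊A⌋₊ with hN
  have hNA : (N : ℝ) ≤ A := Nat.floor_le hA0.le
  have hN2 : N ≤ 2 ^ (k' + 1) := by
    have h1 : A ≤ (2 : ℝ) ^ ((k' + 1 : ℕ) : ℝ) := by
      apply two_le
      push_cast
      have : 0 ≤ (1/2 + P.κ) * k := by positivity
      linarith
    rw [Real.rpow_natCast] at h1
    have h2 : (N : ℝ) ≤ (2 : ℝ) ^ (k' + 1) := hNA.trans h1
    exact_mod_cast h2
  have hinner : ∀ j ∈ U, ((T.filter (fun y => P.idx (y.1 * y.2.1) = j)).card : ℝ) ≤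
      A * L * M + A ^ 2 * L + M * (k' + 2) + A := by
    intro j hj
    set T1 := T.filter (fun y => P.idx (y.1 * y.2.1) = j) with hT1
    have hjlt : j < 2 ^ (k - P.e k) := Finset.mem_range.1 (Finset.mem_filter.1 hj).1
    have hsub : ∀ a ∈ Finset.Icc 1 N,
        ((T1.filter (fun y => y.2.2 = a)).card : ℝ) ≤ L * M + a * L + M * (1 / a) + 1 := by
      intro a ha
      have ha1 : 0 < a := (Finset.mem_Icc.1 ha).1
      have ha1' : (0 : ℝ) < a := by exact_mod_cast ha1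
      have hy0pos : 0 < 2 ^ k + j * 2 ^ P.e k := by positivity
      have hcnt := clc_inner P h (k := k) (2 ^ k + j * 2 ^ P.e k) (2 ^ P.e k) x H a hy0pos hx0 ha1
        (T1.filter (fun y => y.2.2 = a)) (by
        intro y hy
        have hy2 := Finset.mem_filter.1 hy
        have hy1 := Finset.mem_filter.1 hy2.1
        have hy0 := hT y hy1.1
        have hm := (hcell y hy1.1).1
        rw [hy1.2] at hm
        unfold Par.cell at hm
        rw [Finset.mem_Ico] at hm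
        refine ⟨hy0.1, hy0.2.1, hy0.2.2, hm.1, ?_, hy2.2⟩
        have e1 : 2 ^ k + j * 2 ^ P.e k + 2 ^ P.e k = 2 ^ k + (j + 1) * 2 ^ P.e k := by ring
        rw [e1]
        exact hm.2)
      refine hcnt.trans ?_
      have hcast : (((2 ^ P.e k : ℕ) : ℕ) : ℝ) = (2 : ℝ) ^ P.e k := by push_cast; rfl
      rw [hcast]
      set Y : ℝ := ((2 ^ k + j * 2 ^ P.e k : ℕ) : ℝ) with hY
      have hY1 : (2 : ℝ) ^ (k : ℝ) ≤ Y := by
        rw [hY, Real.rpow_natCast]
        push_cast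
        have : (0 : ℝ) ≤ j * 2 ^ P.e k := by positivity
        linarith
      have hY2 : Y ≤ (2 : ℝ) ^ ((k : ℝ) + 1) := by
        have e1 : 2 ^ k + j * 2 ^ P.e k ≤ 2 ^ (k + 1) := by
          have e2 : j * 2 ^ P.e k ≤ 2 ^ (k - P.e k) * 2 ^ P.e k :=
            Nat.mul_le_mul_right _ hjlt.le
          rw [← pow_add, Nat.sub_add_cancel (hc.e_le k)] at e2
          rw [pow_succ]; omega
        rw [hY, show ((k : ℝ) + 1) = ((k + 1 : ℕ) : ℝ) by push_cast; ring, Real.rpow_natCast]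
        exact_mod_cast e1
      have hY0 : 0 < Y := lt_of_lt_of_le (by positivity) hY1
      have hx0' : (0 : ℝ) < x := by exact_mod_cast hx0
      have hlen : (2 : ℝ) ^ P.e k / x + Y * H / (x : ℝ) ^ 2 ≤ L := by
        have e1 : (2 : ℝ) ^ P.e k / x ≤ (2 : ℝ) ^ ((k : ℝ) + 1 - 3 * k' / 2) := by
          calc (2 : ℝ) ^ P.e k / x ≤ (2 : ℝ) ^ ((k : ℝ) / 2) / (2 : ℝ) ^ (k' : ℝ) := by gcongr
            _ = (2 : ℝ) ^ ((k : ℝ) / 2 - k') := by rw [Real.rpow_sub (by norm_num)]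
            _ ≤ _ := two_le (by linarith)
        have e2 : Y * H / (x : ℝ) ^ 2 ≤ (2 : ℝ) ^ ((k : ℝ) + 1 - 3 * k' / 2) := by
          calc Y * H / (x : ℝ) ^ 2 ≤ (2 : ℝ) ^ ((k : ℝ) + 1) * (2 : ℝ) ^ ((k' : ℝ) / 2) /
                ((2 : ℝ) ^ (k' : ℝ)) ^ 2 := by gcongr
            _ = _ := by
              rw [← two_add, ← Real.rpow_natCast _ 2, ← Real.rpow_mul (by norm_num),
                ← Real.rpow_sub (by norm_num)]
              congr 1
              push_cast
              ring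
        have e3 : L = 2 * (2 : ℝ) ^ ((k : ℝ) + 1 - 3 * k' / 2) := by
          rw [hL, show (k : ℝ) + 2 - 3 * k' / 2 = 1 + ((k : ℝ) + 1 - 3 * k' / 2) by ring, two_add,
            Real.rpow_one]
        rw [e3]; linarith
      have hMM : (2 : ℝ) ^ P.e k * (x + H) / Y / a ≤ M * (1 / a) := by
        have e1 : (2 : ℝ) ^ P.e k * (x + H) / Y ≤ M := by
          calc (2 : ℝ) ^ P.e k * (x + H) / Y ≤
                (2 : ℝ) ^ ((k : ℝ) / 2) * (2 : ℝ) ^ ((k' : ℝ) + 1) / (2 : ℝ) ^ (k : ℝ) := by gcongr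
            _ = M := by
              rw [hM, ← two_add, ← Real.rpow_sub (by norm_num)]
              congr 1
              ring
        rw [← div_eq_mul_one_div]
        gcongr
      calc _ ≤ (1 + a * L) * (M * (1 / a) + 1) := by
            apply mul_le_mul _ _ (by positivity) (by positivity)
            · gcongr
            · linarith
        _ = _ := by field_simp; ring
    have hmem : ∀ y ∈ T1, y.2.2 ∈ Finset.Icc 1 N := by
      intro y hy
      have hy1 := Finset.mem_filter.1 hy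
      have hy0 := hT y hy1.1
      rw [Finset.mem_Icc]
      have hapos : 0 < y.2.2 := by
        rcases Nat.eq_zero_or_pos y.2.2 with h1 | h1
        · exfalso
          have := hy0.2.1
          rw [h1, mul_zero] at this
          omega
        · exact h1
      refine ⟨hapos, ?_⟩
      apply Nat.le_floor
      have hq : (2 : ℝ) ^ ((1/2 + P.κ) * k) ≤ y.1 := hy0.1.2.2.2.2.1
      have h1 : (y.1 : ℝ) * y.2.2 ≤ (2 : ℝ) ^ ((k' : ℝ) + 1) := by
        have : (y.1 : ℝ) * y.2.2 ≤ x + H := by exact_mod_cast hy0.2.2.le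
        linarith
      rw [hA, Real.rpow_sub (by norm_num), le_div_iff₀ (by positivity), mul_comm]
      calc (2 : ℝ) ^ ((1/2 + P.κ) * k) * y.2.2 ≤ y.1 * y.2.2 := by gcongr
        _ ≤ _ := h1
    have h1 := card_fiber' T1 _ _ hmem _ hsub
    refine h1.trans ?_
    rw [Finset.sum_add_distrib, Finset.sum_add_distrib, Finset.sum_add_distrib]
    simp only [Finset.sum_const, Nat.card_Icc, nsmul_eq_mul, Nat.add_sub_cancel, mul_one]
    have e1 : ∑ a ∈ Finset.Icc 1 N, (a : ℝ) ≤ A ^ 2 := by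
      calc ∑ a ∈ Finset.Icc 1 N, (a : ℝ) ≤ ∑ a ∈ Finset.Icc 1 N, A := by
            apply Finset.sum_le_sum
            intro a ha
            exact (Nat.cast_le.2 (Finset.mem_Icc.1 ha).2).trans hNA
        _ = N * A := by simp
        _ ≤ A * A := by gcongr
        _ = A ^ 2 := by ring
    have e2 := sum_inv_le N (k' + 1) hN2
    push_cast at e2
    have e3 : (N : ℝ) * (L * M) ≤ A * L * M := by
      calc (N : ℝ) * (L * M) ≤ A * (L * M) := by gcongr
        _ = _ := by ring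
    have e4 : ∑ a ∈ Finset.Icc 1 N, (a : ℝ) * L ≤ A ^ 2 * L := by
      rw [← Finset.sum_mul]
      gcongr
    have e5 : ∑ a ∈ Finset.Icc 1 N, M * (1 / (a : ℝ)) ≤ M * (k' + 2) := by
      rw [← Finset.mul_sum]
      apply mul_le_mul_of_nonneg_left _ hM0.le
      linarith
    linarith
  have h1 := card_fiber' T _ U (fun y hy => (hcell y hy).2) _ hinner
  rw [Finset.sum_const, nsmul_eq_mul] at h1
  have h2 := hK1 k' (hk0a.trans hk')
  set V : ℝ := (2 : ℝ) ^ (P.ν * k) with hV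
  have f1 : V * (A * L * M) ≤ 16 * Z := by
    have e1 : V * (A * L * M) = (2 : ℝ) ^ ((k' : ℝ) / 2 - (P.κ - P.ν) * k + (4 : ℕ)) := by
      rw [hV, hA, hL, hM, ← two_add, ← two_add, ← two_add]
      congr 1
      push_cast
      ring
    rw [e1, two_add, Real.rpow_natCast, mul_comm]
    apply mul_le_mul _ _ (by positivity) (by positivity)
    · norm_num
    · apply two_le
      nlinarith [mul_le_mul_of_nonneg_left hk'k (by linarith : (0 : ℝ) ≤ P.κ - P.ν)]
  have f2 : V * (A ^ 2 * L) ≤ 16 * Z := by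
    have e1 : V * (A ^ 2 * L) = (2 : ℝ) ^ ((k' : ℝ) / 2 - (2 * P.κ - P.ν) * k + (4 : ℕ)) := by
      rw [hV, hA, hL, sq, ← two_add, ← two_add, ← two_add]
      congr 1
      push_cast
      ring
    rw [e1, two_add, Real.rpow_natCast, mul_comm]
    apply mul_le_mul _ _ (by positivity) (by positivity)
    · norm_num
    · apply two_le
      nlinarith [mul_le_mul_of_nonneg_left hk'k (by linarith : (0 : ℝ) ≤ 2 * P.κ - P.ν)]
  have f3 : V * A ≤ 2 * Z := by
    have e1 : V * A = (2 : ℝ) ^ ((k' : ℝ) - (1/2 + P.κ - P.ν) * k + (1 : ℕ)) := by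
      rw [hV, hA, ← two_add]
      congr 1
      push_cast
      ring
    rw [e1, two_add, Real.rpow_natCast, mul_comm]
    apply mul_le_mul _ _ (by positivity) (by positivity)
    · norm_num
    · apply two_le
      nlinarith [mul_le_mul_of_nonneg_left hk'k (by linarith : (0 : ℝ) ≤ 1/2 + P.κ - P.ν)]
  have f4 : V * M ≤ 2 * Z := by
    have e1 : V * M = (2 : ℝ) ^ ((k' : ℝ) - (1/2 - P.ν) * k + (1 : ℕ)) := by
      rw [hV, hM, ← two_add]
      congr 1
      push_cast
      ring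
    rw [e1, two_add, Real.rpow_natCast, mul_comm]
    apply mul_le_mul _ _ (by positivity) (by positivity)
    · norm_num
    · apply two_le
      have e2 := mul_le_mul_of_nonneg_left hkk (by linarith : (0 : ℝ) ≤ 1/2 - P.ν)
      have e3 : P.ν * ϖ * k' ≤ 0.01 * P.ν * k' := by
        apply mul_le_mul_of_nonneg_right _ (by linarith)
        nlinarith
      nlinarith
  calc (T.card : ℝ) ≤ U.card * (A * L * M + A ^ 2 * L + M * (k' + 2) + A) := h1
    _ ≤ V * (A * L * M + A ^ 2 * L + M * (k' + 2) + A) := by gcongr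
    _ = V * (A * L * M) + V * (A ^ 2 * L) + (V * M) * (k' + 2) + V * A := by ring
    _ ≤ 16 * Z + 16 * Z + 2 * Z * (k' + 2) + 2 * Z := by gcongr
    _ = (34 + 2 * (k' + 2)) * Z := by ring
    _ ≤ (40 * (k' + 1)) * Z := by
        apply mul_le_mul_of_nonneg_right _ hZ0.le
        linarith
    _ ≤ (2 : ℝ) ^ (0.09 * P.ν * k') * Z := by gcongr
    _ = (2 : ℝ) ^ ((1/2 - ϖ / 2 + 1.1 * P.ν) * k') := by
        rw [hZ, ← two_add]
        congr 1
        ring

end Pool.Agent.Helper2.QRH
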