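import Pool.Agent.Helper2.QRH.C3

set_option autoImplicit false
open scoped Classical

namespace Pool.Agent.Helper2.QRH

open Pool.Agent.Helper10.QRH

theorem cl (P : Par) (h0 : PhiFacts P) (ha : CLa P) (hb : CLb P) (hc : CLc P) : CL P := by
  obtain ⟨hν, hν1, hνκ, hνη, hνφ, hd, hs, hg, hg1, hg2⟩ := h0.small
  obtain ⟨Ka, hKa⟩ := ha
  obtain ⟨Kb, hKb⟩ := hb
  obtain ⟨Kc, hKc⟩ := hc
  obtain ⟨K1, hK1⟩ := absorb (1.4 * P.ν) (by positivity) 9
  refine ⟨max (max Ka Kb) (max Kc (max K1 2)), fun k0 hk0 hfb k' hk' x H hx hxH hH ϖ φ' hϖφ hφH T hT => ?_⟩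
  have hκ := P.κ0
  have hκ1 := P.κ1
  have g1 : Ka ≤ k0 := ((le_max_left _ _).trans (le_max_left _ _)).trans hk0
  have g2 : Kb ≤ k0 := ((le_max_right _ _).trans (le_max_left _ _)).trans hk0
  have g3 : Kc ≤ k0 := ((le_max_left _ _).trans (le_max_right _ _)).trans hk0
  have g4 : K1 ≤ k0 :=
    ((le_max_left _ _).trans ((le_max_right _ _).trans (le_max_right _ _))).trans hk0
  have g5 : 2 ≤ k0 :=
    ((le_max_right _ _).trans ((le_max_right _ _).trans (le_max_right _ _))).trans hk0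
  have hk'r : (2 : ℝ) ≤ k' := by exact_mod_cast g5.trans hk'
  have hϖ1 : 7 * P.ν ≤ ϖ := by rcases hϖφ with h | h <;> linarith [h.1]
  have hϖ2 : ϖ ≤ 15 * P.ν := by rcases hϖφ with h | h <;> linarith [h.1]
  have hϖ0 : 0 < ϖ := by linarith
  have hφϖ : φ' - ϖ / 2 ≤ -3.48 * P.ν := by
    rcases hϖφ with h | h <;> linarith [h.1, h.2]
  have hφ1 : φ' ≤ 4.02 * P.ν := by rcases hϖφ with h | h <;> linarith [h.2]
  set Z : ℝ := (2 : ℝ) ^ (-(2.3 * P.ν * k')) with hZ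
  have hZ0 : 0 < Z := by positivity
  have hHn : (0 : ℝ) ≤ H := by positivity
  -- comparison with `H Z`
  have hcomp : ∀ a : ℝ, a + φ' ≤ 1/2 - 2.3 * P.ν → (2 : ℝ) ^ (a * k') ≤ H * Z := by
    intro a ha
    calc (2 : ℝ) ^ (a * k') ≤ (2 : ℝ) ^ ((1/2 - φ') * k' + (-(2.3 * P.ν * k'))) := by
          apply two_le
          nlinarith
      _ = (2 : ℝ) ^ ((1/2 - φ') * k') * Z := two_add _ _
      _ ≤ H * Z := by gcongr
  have hx0 : 0 < x := lt_of_lt_of_le (by positivity) hx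
  have hpt : ∀ y ∈ T, k0 ≤ Nat.log 2 (y.1 * y.2.1) ∧
      (y.1, y.2.1) ∈ P.Cd (Nat.log 2 (y.1 * y.2.1)) ∧ x ≤ y.1 * y.2.2 ∧ y.1 * y.2.2 < x + H ∧
      (2 : ℝ) ^ ((k' : ℝ) / 10) ≤ y.1 ∧
      (¬ y.2.1 ∣ y.2.2 ∨ ((Nat.log 2 (y.1 * y.2.1) : ℕ) : ℝ) ≤ (1 - ϖ) * k' ∨
        (1 + ϖ) * k' ≤ ((Nat.log 2 (y.1 * y.2.1) : ℕ) : ℝ)) := by
    intro y hy
    obtain ⟨k, hk, hC, h1, h2, h3, h4⟩ := hT y hy
    have hlog : Nat.log 2 (y.1 * y.2.1) = k := by
      rw [Nat.log_eq_iff (Or.inr ⟨by norm_num, Nat.mul_ne_zero hC.1.ne_zero hC.2.1.ne'⟩)]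
      exact ⟨hC.2.2.1, hC.2.2.2.1⟩
    rw [hlog]
    exact ⟨hk, hC, h1, h2, h3, h4⟩
  have hmem : ∀ y ∈ T, Nat.log 2 (y.1 * y.2.1) ∈ Finset.range (2 * k' + 3) := by
    intro y hy
    obtain ⟨_, hC, h1, h2, _, _⟩ := hpt y hy
    set k := Nat.log 2 (y.1 * y.2.1) with hk
    have hapos : 0 < y.2.2 := by
      rcases Nat.eq_zero_or_pos y.2.2 with h5 | h5
      · exfalso
        rw [h5, mul_zero] at h1
        omega
      · exact h5
    have h3 : y.1 < 2 ^ (k' + 1) := by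
      have := Nat.le_mul_of_pos_right y.1 hapos
      omega
    have h4 : (2 : ℝ) ^ ((1/2 + P.κ) * k) < (2 : ℝ) ^ (((k' + 1 : ℕ) : ℝ)) := by
      refine lt_of_le_of_lt hC.2.2.2.2.1 ?_
      rw [Real.rpow_natCast]
      exact_mod_cast h3
    have h5 : (1/2 + P.κ) * k < ((k' + 1 : ℕ) : ℝ) :=
      (Real.rpow_lt_rpow_left_iff (by norm_num)).1 h4
    push_cast at h5
    have h6 : (k : ℝ) < 2 * k' + 2 := by
      have : 0 ≤ P.κ * (k : ℝ) := by positivity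
      nlinarith
    have h7 : k < 2 * k' + 2 := by exact_mod_cast h6
    rw [Finset.mem_range]
    omega
  have hsub : ∀ k ∈ Finset.range (2 * k' + 3),
      ((T.filter (fun y => Nat.log 2 (y.1 * y.2.1) = k)).card : ℝ) ≤ 3 * (H * Z) := by
    intro k _
    set Tk := T.filter (fun y => Nat.log 2 (y.1 * y.2.1) = k) with hTk
    rcases Tk.eq_empty_or_nonempty with hemp | ⟨z, hz⟩
    · rw [hemp]
      simp only [Finset.card_empty, Nat.cast_zero]
      positivity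
    have hz1 := Finset.mem_filter.1 hz
    have hptk : ∀ y ∈ Tk, k0 ≤ k ∧
      (y.1, y.2.1) ∈ P.Cd k ∧ x ≤ y.1 * y.2.2 ∧ y.1 * y.2.2 < x + H ∧
      (2 : ℝ) ^ ((k' : ℝ) / 10) ≤ y.1 ∧
      (¬ y.2.1 ∣ y.2.2 ∨ (k : ℝ) ≤ (1 - ϖ) * k' ∨ (1 + ϖ) * k' ≤ (k : ℝ)) := by
      intro y hy
      have hy1 := Finset.mem_filter.1 hy
      have := hpt y hy1.1
      rw [hy1.2] at this
      exact this
    obtain ⟨hk0k, hCz, _, _, hz10, _⟩ := hptk z hz
    have hkr : (0 : ℝ) ≤ k := by positivity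
    have hkk' : (k' : ℝ) / 10 < k + 1 := by
      have h1 : (z.1 : ℝ) < 2 ^ (k + 1) := by
        have h2 := Nat.le_mul_of_pos_right z.1 hCz.2.1
        have h3 : z.1 < 2 ^ (k + 1) := lt_of_le_of_lt h2 hCz.2.2.2.1
        exact_mod_cast h3
      have h2 : (2 : ℝ) ^ ((k' : ℝ) / 10) < (2 : ℝ) ^ (((k + 1 : ℕ) : ℝ)) := by
        rw [Real.rpow_natCast]
        linarith
      have h3 := (Real.rpow_lt_rpow_left_iff (by norm_num)).1 h2
      push_cast at h3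
      exact h3
    rcases le_or_gt ((1 + ϖ) * k') (k : ℝ) with hcase | hcase
    · have h1 := hKc k0 g3 hfb k k' hk0k hk' ϖ hϖ1 hϖ2 hcase x H hx hxH hH Tk
        (fun y hy => ⟨(hptk y hy).2.1, (hptk y hy).2.2.1, (hptk y hy).2.2.2.1⟩)
      have h2 := hcomp (1/2 - ϖ / 2 + 1.1 * P.ν) (by linarith)
      have h3 : 0 ≤ H * Z := by positivity
      linarith
    rcases le_or_gt (k : ℝ) ((1 - ϖ) * k') with hcase2 | hcase2
    · have h1 := hKa k0 g1 hfb k hk0k x H Tk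
        (fun y hy => ⟨(hptk y hy).2.1, (hptk y hy).2.2.1, (hptk y hy).2.2.2.1⟩)
      have h2 : (2 : ℝ) ^ ((1/2 + P.ν) * k) ≤ H * Z := by
        calc (2 : ℝ) ^ ((1/2 + P.ν) * k) ≤ (2 : ℝ) ^ ((1/2 + P.ν - ϖ / 2) * k') := by
              apply two_le
              have e1 := mul_le_mul_of_nonneg_left hcase2 (by linarith : (0 : ℝ) ≤ 1/2 + P.ν)
              have e2 : 0 ≤ P.ν * ϖ * k' := by positivity
              nlinarith
          _ ≤ H * Z := hcomp _ (by linarith)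
      have h3 : (H : ℝ) * (2 : ℝ) ^ (-((P.κ - P.ν) * k)) ≤ 2 * (H * Z) := by
        have e1 : (2 : ℝ) ^ (-((P.κ - P.ν) * k)) ≤ (2 : ℝ) ^ (1 + (-(2.3 * P.ν * k'))) := by
          apply two_le
          have e2 := mul_le_mul_of_nonneg_left hkk'.le (by linarith : (0 : ℝ) ≤ P.κ - P.ν)
          have e3 : 23 * P.ν * (k' / 10) ≤ (P.κ - P.ν) * (k' / 10) := by
            apply mul_le_mul_of_nonneg_right _ (by linarith)
            linarith
          nlinarith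
        rw [two_add, Real.rpow_one] at e1
        calc (H : ℝ) * (2 : ℝ) ^ (-((P.κ - P.ν) * k)) ≤ H * (2 * Z) := by gcongr
          _ = _ := by ring
      linarith
    · have h1 := hKb k0 g2 hfb k k' hk0k hk'
        (by nlinarith) (by nlinarith) x H hx hxH hH Tk (by
          intro y hy
          obtain ⟨_, hC, e1, e2, _, e3⟩ := hptk y hy
          refine ⟨hC, e1, e2, ?_⟩
          rcases e3 with e3 | e3 | e3
          · exact e3
          · linarith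
          · linarith)
      have h2 := hcomp (1/2 - 100 * P.ν) (by linarith)
      have h3 : 0 ≤ H * Z := by positivity
      linarith
  have h1 := card_fiber' T _ _ hmem _ hsub
  rw [Finset.sum_const, nsmul_eq_mul, Finset.card_range] at h1
  have h2 := hK1 k' (g4.trans hk')
  push_cast at h1
  have h3 : (2 : ℝ) ^ (1.4 * P.ν * k') * Z = (2 : ℝ) ^ (-(0.9 * P.ν * k')) := by
    rw [hZ, ← two_add]
    congr 1
    ring
  calc (T.card : ℝ) ≤ (2 * k' + 3) * (3 * (H * Z)) := h1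
    _ ≤ H * ((9 * (k' + 1)) * Z) := by
        have : 0 ≤ H * Z := by positivity
        nlinarith
    _ ≤ H * ((2 : ℝ) ^ (1.4 * P.ν * k') * Z) := by gcongr
    _ = _ := by rw [h3]

end Pool.Agent.Helper2.QRH
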